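import Mathlib
import Pool.Agent.U209.BX.Stm

/-!
# Project BX, package EXP (helper780): expansion of `1 / (u + z ^ Q v) ^ 2` in powers of `z ^ Q`
-/

set_option autoImplicit false

namespace Pool.Agent.U780.BX.EXP

open Polynomial Complex Finset Filter Topology MeasureTheory ComplexConjugate Metric
open Pool.Agent.U209.BX

/-- The power series `φ` represents `f` on the ball of radius `r`. -/
def Rp (φ : PowerSeries ℂ) (f : ℂ → ℂ) (r : ℝ) : Prop :=
  ∀ z : ℂ, ‖z‖ < r → HasSum (fun n => PowerSeries.coeff n φ * z ^ n) (f z)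

lemma Rp.mul {φ ψ : PowerSeries ℂ} {f g : ℂ → ℂ} {r : ℝ} (h1 : Rp φ f r) (h2 : Rp ψ g r) :
    Rp (φ * ψ) (fun z => f z * g z) r := by
  intro z hz
  have a1 := h1 z hz
  have a2 := h2 z hz
  have b1 : Summable fun n => ‖PowerSeries.coeff n φ * z ^ n‖ := summable_norm_iff.2 a1.summable
  have b2 : Summable fun n => ‖PowerSeries.coeff n ψ * z ^ n‖ := summable_norm_iff.2 a2.summable
  have c1 : ∀ n, PowerSeries.coeff n (φ * ψ) * z ^ n = ∑ kl ∈ antidiagonal n,
      (PowerSeries.coeff kl.1 φ * z ^ kl.1) * (PowerSeries.coeff kl.2 ψ * z ^ kl.2) := by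
    intro n
    rw [PowerSeries.coeff_mul, Finset.sum_mul]
    refine Finset.sum_congr rfl fun kl hkl => ?_
    rw [← Finset.HasAntidiagonal.mem_antidiagonal.1 hkl, pow_add]
    ring
  have c2 := tsum_mul_tsum_eq_tsum_sum_antidiagonal_of_summable_norm b1 b2
  have c3 := (summable_norm_sum_mul_antidiagonal_of_summable_norm b1 b2).of_norm
  simp only [c1]
  have c4 := c3.hasSum
  rw [← c2, a1.tsum_eq, a2.tsum_eq] at c4
  exact c4

lemma Rp.pow {φ : PowerSeries ℂ} {f : ℂ → ℂ} {r : ℝ} (h : Rp φ f r) (m : ℕ) :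
    Rp (φ ^ m) (fun z => f z ^ m) r := by
  induction m with
  | zero =>
    intro z _
    simp only [pow_zero]
    have h1 := hasSum_single (f := fun n => PowerSeries.coeff n (1 : PowerSeries ℂ) * z ^ n) 0
      (fun n hn => by rw [PowerSeries.coeff_one, if_neg hn, zero_mul])
    simpa using h1
  | succ m ih =>
    intro z hz
    have h1 := ih.mul h z hz
    rw [← pow_succ] at h1
    exact h1

lemma Rp.poly (u : ℂ[X]) (r : ℝ) : Rp (u : PowerSeries ℂ) (fun z => u.eval z) r := by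
  intro z _
  have h1 : HasSum (fun n => PowerSeries.coeff n (u : PowerSeries ℂ) * z ^ n)
      (∑ n ∈ Finset.range (u.natDegree + 1), PowerSeries.coeff n (u : PowerSeries ℂ) * z ^ n) :=
    hasSum_sum_of_ne_finset_zero (fun n hn => by
      rw [Finset.mem_range, not_lt] at hn
      rw [Polynomial.coeff_coe, Polynomial.coeff_eq_zero_of_natDegree_lt (by omega), zero_mul])
  simp only [Polynomial.coeff_coe] at h1 ⊢
  rw [Polynomial.eval_eq_sum_range]
  exact h1

lemma rp_unique {φ ψ : PowerSeries ℂ} {f g : ℂ → ℂ} {r : ℝ} (hr : 0 < r) (h1 : Rp φ f r)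
    (h2 : Rp ψ g r) (hfg : ∀ z, ‖z‖ < r → f z = g z) : φ = ψ := by
  have key : ∀ (χ : PowerSeries ℂ) (k : ℂ → ℂ), Rp χ k r → (∀ z, ‖z‖ < r → k z = f z) →
      HasFPowerSeriesAt f (FormalMultilinearSeries.ofScalars ℂ fun n => PowerSeries.coeff n χ) 0 := by
    intro χ k hk hkf
    rw [hasFPowerSeriesAt_iff]
    filter_upwards [Metric.ball_mem_nhds (0 : ℂ) hr] with z hz
    rw [mem_ball_zero_iff] at hz
    have h3 := hk z hz
    rw [hkf z hz] at h3
    simp only [FormalMultilinearSeries.coeff_ofScalars, smul_eq_mul, zero_add]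
    simpa only [mul_comm] using h3
  have h3 := (key φ f h1 fun _ _ => rfl).eq_formalMultilinearSeries
    (key ψ g h2 fun z hz => (hfg z hz).symm)
  ext n
  have h4 := congrArg (fun p : FormalMultilinearSeries ℂ ℂ ℂ => p.coeff n) h3
  simpa only [FormalMultilinearSeries.coeff_ofScalars] using h4

/-- The power series of the Taylor coefficients. -/
noncomputable def tay (f : ℂ → ℂ) : PowerSeries ℂ :=
  PowerSeries.mk fun n => (n.factorial : ℂ)⁻¹ * iteratedDeriv n f 0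

lemma rp_tay {f : ℂ → ℂ} {r : ℝ} (hr : 0 < r) (hf : DifferentiableOn ℂ f (ball 0 r)) :
    Rp (tay f) f r := by
  intro z hz
  have h1 := Complex.hasSum_taylorSeries_on_ball (c := 0) (r := r) hf
    (z := z) (by rw [mem_ball_zero_iff]; exact hz)
  simp only [sub_zero, smul_eq_mul] at h1
  unfold tay
  simp only [PowerSeries.coeff_mk]
  refine h1.congr_fun ?_
  intro n
  ring

lemma rp_inv {u : ℂ[X]} {r : ℝ} (hr : 0 < r) (hu : ∀ z, ‖z‖ < r → u.eval z ≠ 0) :
    Rp ((u : PowerSeries ℂ)⁻¹) (fun z => (u.eval z)⁻¹) r := by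
  have hd : DifferentiableOn ℂ (fun z => (u.eval z)⁻¹) (ball 0 r) := by
    intro z hz
    rw [mem_ball_zero_iff] at hz
    exact (u.differentiable.differentiableAt.inv (hu z hz)).differentiableWithinAt
  have h1 := rp_tay hr hd
  have h2 : tay (fun z => (u.eval z)⁻¹) * (u : PowerSeries ℂ) = 1 := by
    refine rp_unique hr (h1.mul (Rp.poly u r)) (Rp.pow (Rp.poly 1 r) 0) ?_ |>.trans (pow_zero _)
    intro z hz
    rw [pow_zero, inv_mul_cancel₀ (hu z hz)]
  have h3 : PowerSeries.constantCoeff (u : PowerSeries ℂ) ≠ 0 := by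
    have h4 := hu 0 (by rw [norm_zero]; exact hr)
    rw [← PowerSeries.coeff_zero_eq_constantCoeff_apply, Polynomial.coeff_coe,
      Polynomial.coeff_zero_eq_eval_zero]
    exact h4
  rw [← (PowerSeries.eq_inv_iff_mul_eq_one h3).2 h2]
  exact h1

/-- Cauchy's estimate. -/
lemma rp_bound {φ : PowerSeries ℂ} {f : ℂ → ℂ} {r ρ M : ℝ} (h : Rp φ f r)
    (hf : DifferentiableOn ℂ f (ball 0 r)) (hρ : 0 < ρ) (hρr : ρ < r)
    (hM : ∀ z : ℂ, ‖z‖ = ρ → ‖f z‖ ≤ M) (n : ℕ) : ‖PowerSeries.coeff n φ‖ ≤ M * (ρ⁻¹) ^ n := by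
  have hr : 0 < r := hρ.trans hρr
  have h1 := rp_unique hr h (rp_tay hr hf) fun _ _ => rfl
  rw [h1]
  unfold tay
  rw [PowerSeries.coeff_mk, norm_mul, norm_inv, Complex.norm_natCast]
  have hd : DiffContOnCl ℂ f (ball 0 ρ) := by
    apply DifferentiableOn.diffContOnCl
    rw [closure_ball _ hρ.ne']
    exact hf.mono (closedBall_subset_ball hρr)
  have h2 := Complex.norm_iteratedDeriv_le_of_forall_mem_sphere_norm_le n hρ hd
    (fun z hz => hM z (mem_sphere_zero_iff_norm.1 hz))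
  have h3 : (0 : ℝ) < n.factorial := by exact_mod_cast n.factorial_pos
  calc (n.factorial : ℝ)⁻¹ * ‖iteratedDeriv n f 0‖ ≤
      (n.factorial : ℝ)⁻¹ * (n.factorial * M / ρ ^ n) := by gcongr
    _ = M * (ρ⁻¹) ^ n := by
      rw [inv_pow]
      field_simp

/-- The finite geometric identity. -/
lemma geom2 {R : Type*} [CommRing R] (y : R) (N : ℕ) :
    (1 - y) ^ 2 * ∑ m ∈ range N, ((m : R) + 1) * y ^ m =
      1 - y ^ N * ((N + 1) - N * y) := by
  induction N with
  | zero => simp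
  | succ N ih =>
    rw [Finset.sum_range_succ, mul_add, ih]
    push_cast
    ring

/-- The formal coefficients. -/
noncomputable def Hm (u v : ℂ[X]) (m : ℕ) : PowerSeries ℂ :=
  PowerSeries.C ((-1) ^ m * ((m : ℂ) + 1)) * (v : PowerSeries ℂ) ^ m * ((u : PowerSeries ℂ)⁻¹) ^ (m + 2)

lemma gco_eq (u v : ℂ[X]) (hu : u.eval 0 ≠ 0) (Q : ℕ) (hQ : 1 ≤ Q) (b : ℕ) :
    gco (u + X ^ Q * v) b =
      ∑ m ∈ range (b + 1), if Q * m ≤ b then PowerSeries.coeff (b - Q * m) (Hm u v m) else 0 := by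
  set U : PowerSeries ℂ := (u : PowerSeries ℂ) with hU
  set V : PowerSeries ℂ := (v : PowerSeries ℂ) with hV
  set W : PowerSeries ℂ := ((u + X ^ Q * v : ℂ[X]) : PowerSeries ℂ) with hW
  have hc : PowerSeries.constantCoeff U ≠ 0 := by
    rw [← PowerSeries.coeff_zero_eq_constantCoeff_apply, hU, Polynomial.coeff_coe,
      Polynomial.coeff_zero_eq_eval_zero]
    exact hu
  have hUi : U * U⁻¹ = 1 := PowerSeries.mul_inv_cancel U hc
  have hWe : W = U + PowerSeries.X ^ Q * V := by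
    rw [hW, Polynomial.coe_add, Polynomial.coe_mul, Polynomial.coe_pow, Polynomial.coe_X]
  have hcW : PowerSeries.constantCoeff W ≠ 0 := by
    rw [hWe, map_add, map_mul, map_pow, PowerSeries.constantCoeff_X, zero_pow (by omega), zero_mul,
      add_zero]
    exact hc
  have hWi : W * W⁻¹ = 1 := PowerSeries.mul_inv_cancel W hcW
  set y : PowerSeries ℂ := -(PowerSeries.X ^ Q * V * U⁻¹) with hy
  have h1 : W * U⁻¹ = 1 - y := by
    rw [hWe, hy, add_mul, hUi]
    ring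
  have h2 := geom2 y (b + 1)
  -- multiply with the square of the inverse
  have h3 : (W⁻¹) ^ 2 = (U⁻¹) ^ 2 * ∑ m ∈ range (b + 1), ((m : PowerSeries ℂ) + 1) * y ^ m +
      PowerSeries.X ^ (b + 1) * ((W⁻¹) ^ 2 * ((-1) ^ (b + 1) * PowerSeries.X ^ ((Q - 1) * (b + 1)) *
        (V * U⁻¹) ^ (b + 1) * (((b + 1 : ℕ) : PowerSeries ℂ) + 1 - ((b + 1 : ℕ) : PowerSeries ℂ) * y))) := by
    have e1 : y ^ (b + 1) = PowerSeries.X ^ (b + 1) * ((-1) ^ (b + 1) *
        PowerSeries.X ^ ((Q - 1) * (b + 1)) * (V * U⁻¹) ^ (b + 1)) := by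
      have e2 : PowerSeries.X (R := ℂ) ^ Q = PowerSeries.X * PowerSeries.X ^ (Q - 1) := by
        rw [← pow_succ', Nat.sub_add_cancel hQ]
      rw [hy, e2, pow_mul, ← mul_pow, ← mul_pow, ← mul_pow]
      congr 1
      ring
    have e3 : (U⁻¹) ^ 2 * ∑ m ∈ range (b + 1), ((m : PowerSeries ℂ) + 1) * y ^ m =
        (W⁻¹) ^ 2 * (1 - y ^ (b + 1) * ((((b + 1 : ℕ) : PowerSeries ℂ) + 1) -
          ((b + 1 : ℕ) : PowerSeries ℂ) * y)) := by
      rw [← h2, ← h1]
      have e4 : (W⁻¹) ^ 2 * ((W * U⁻¹) ^ 2 * ∑ m ∈ range (b + 1), ((m : PowerSeries ℂ) + 1) * y ^ m) =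
          (W * W⁻¹) ^ 2 * ((U⁻¹) ^ 2 * ∑ m ∈ range (b + 1), ((m : PowerSeries ℂ) + 1) * y ^ m) := by
        ring
      rw [e4, hWi, one_pow, one_mul]
    rw [e3, e1]
    ring
  have h4 : gco (u + X ^ Q * v) b = PowerSeries.coeff b ((W⁻¹) ^ 2) := rfl
  rw [h4, h3, map_add, PowerSeries.coeff_X_pow_mul', if_neg (by omega), add_zero, Finset.mul_sum,
    map_sum]
  refine Finset.sum_congr rfl fun m _ => ?_
  have h5 : (U⁻¹) ^ 2 * (((m : PowerSeries ℂ) + 1) * y ^ m) = PowerSeries.X ^ (Q * m) * Hm u v m := by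
    unfold Hm
    rw [hy, map_mul, map_pow, map_add, map_neg, map_one, map_natCast, pow_mul, pow_add]
    have e5 : (-(PowerSeries.X ^ Q * V * U⁻¹)) ^ m =
        (-1) ^ m * (PowerSeries.X ^ Q) ^ m * V ^ m * (U⁻¹) ^ m := by
      rw [neg_pow, mul_pow, mul_pow]
      ring
    rw [e5]
    ring
  rw [h5, PowerSeries.coeff_X_pow_mul']

lemma pow_bound (m : ℕ) : ((m : ℝ) + 1) * (2 / 5) ^ m ≤ 4 * (2⁻¹) ^ m := by
  have h1 : ((m : ℝ) + 1) ≤ 4 * (5 / 4) ^ m := by
    have h2 := one_add_mul_le_pow (a := (1 / 4 : ℝ)) (by norm_num) m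
    have h3 : (1 + 1 / 4 : ℝ) = 5 / 4 := by norm_num
    rw [h3] at h2
    linarith
  calc ((m : ℝ) + 1) * (2 / 5) ^ m ≤ (4 * (5 / 4) ^ m) * (2 / 5) ^ m := by gcongr
    _ = 4 * (2⁻¹) ^ m := by
      rw [mul_assoc, ← mul_pow]
      norm_num

theorem t_EXP : S_EXP := by
  intro u v hu huv
  -- on the closed disc
  have hdisc : ∀ z : ℂ, ‖z‖ ≤ 1 → 3 * ‖v.eval z‖ ≤ ‖u.eval z‖ := by
    intro z hz
    have hd : DiffContOnCl ℂ (fun z => v.eval z / u.eval z) (ball 0 1) := by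
      apply DifferentiableOn.diffContOnCl
      rw [closure_ball _ one_ne_zero]
      intro w hw
      rw [mem_closedBall_zero_iff] at hw
      exact (v.differentiable.differentiableAt.div u.differentiable.differentiableAt
        (hu w hw)).differentiableWithinAt
    have h1 := Complex.norm_le_of_forall_mem_frontier_norm_le (C := 1 / 3) isBounded_ball hd
      (fun w hw => by
        rw [frontier_ball _ one_ne_zero, mem_sphere_zero_iff_norm] at hw
        rw [norm_div, div_le_iff₀ (norm_pos_iff.2 (hu w hw.le))]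
        have := huv w hw
        linarith) (z := z) (by
          rw [closure_ball _ one_ne_zero, mem_closedBall_zero_iff]
          exact hz)
    rw [norm_div, div_le_iff₀ (norm_pos_iff.2 (hu z hz))] at h1
    linarith
  refine ⟨?_, ?_⟩
  · intro Q z hz h0
    rw [eval_add, eval_mul, eval_pow, eval_X] at h0
    have h1 := hdisc z hz
    have h2 := norm_pos_iff.2 (hu z hz)
    have h3 : ‖z ^ Q * v.eval z‖ ≤ ‖v.eval z‖ := by
      rw [norm_mul, norm_pow]
      exact mul_le_of_le_one_left (norm_nonneg _) (pow_le_one₀ (norm_nonneg _) hz)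
    have h4 : u.eval z = -(z ^ Q * v.eval z) := eq_neg_of_add_eq_zero_left h0
    have h5 : ‖u.eval z‖ ≤ ‖v.eval z‖ := by
      rw [h4, norm_neg]
      exact h3
    linarith
  -- a larger disc
  set S : Set ℂ := {z | 0 < 2 * ‖u.eval z‖ - 5 * ‖v.eval z‖} with hS
  have hSo : IsOpen S := by
    refine isOpen_lt continuous_const ?_
    exact (continuous_const.mul u.continuous.norm).sub (continuous_const.mul v.continuous.norm)
  have hSc : closedBall (0 : ℂ) 1 ⊆ S := by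
    intro z hz
    rw [mem_closedBall_zero_iff] at hz
    have h1 := hdisc z hz
    have h2 := norm_pos_iff.2 (hu z hz)
    show 0 < 2 * ‖u.eval z‖ - 5 * ‖v.eval z‖
    linarith
  obtain ⟨δ, hδ, hδS⟩ := (isCompact_closedBall (0 : ℂ) 1).exists_thickening_subset_open hSo hSc
  rw [thickening_closedBall hδ zero_le_one] at hδS
  have hr : 0 < δ + 1 := by linarith
  have hS1 : ∀ z : ℂ, ‖z‖ < δ + 1 → u.eval z ≠ 0 ∧ ‖v.eval z‖ ≤ 2 / 5 * ‖u.eval z‖ := by
    intro z hz
    have h1 : 0 < 2 * ‖u.eval z‖ - 5 * ‖v.eval z‖ := hδS (mem_ball_zero_iff.2 hz)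
    have h2 := norm_nonneg (v.eval z)
    refine ⟨fun h0 => ?_, by linarith⟩
    rw [h0, norm_zero] at h1
    linarith
  set ρ : ℝ := 1 + δ / 2 with hρ
  have hρ0 : 0 < ρ := by positivity
  have hρr : ρ < δ + 1 := by rw [hρ]; linarith
  obtain ⟨c, hc, hcu⟩ : ∃ c : ℝ, 0 < c ∧ ∀ z : ℂ, ‖z‖ = ρ → c ≤ ‖u.eval z‖ := by
    obtain ⟨w, hw, hmin⟩ := (isCompact_closedBall (0 : ℂ) ρ).exists_isMinOn
      ⟨0, mem_closedBall_self hρ0.le⟩ (f := fun z => ‖u.eval z‖) u.continuous.norm.continuousOn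
    refine ⟨‖u.eval w‖, norm_pos_iff.2 (hS1 w ?_).1, fun z hz => hmin ?_⟩
    · rw [mem_closedBall_zero_iff] at hw
      exact hw.trans_lt hρr
    · rw [mem_closedBall_zero_iff]
      exact hz.le
  have hH : ∀ m : ℕ, Rp (Hm u v m)
      (fun z => (-1) ^ m * ((m : ℂ) + 1) * (v.eval z) ^ m * ((u.eval z) ^ (m + 2))⁻¹) (δ + 1) := by
    intro m
    have h1 := ((Rp.poly (Polynomial.C ((-1) ^ m * ((m : ℂ) + 1))) (δ + 1)).mul
      ((Rp.poly v (δ + 1)).pow m)).mul ((rp_inv hr fun z hz => (hS1 z hz).1).pow (m + 2))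
    have h2 : ((Polynomial.C ((-1) ^ m * ((m : ℂ) + 1)) : ℂ[X]) : PowerSeries ℂ) =
        PowerSeries.C ((-1) ^ m * ((m : ℂ) + 1)) := Polynomial.coe_C _
    rw [h2] at h1
    intro z hz
    have h3 := h1 z hz
    simp only [eval_C, inv_pow] at h3
    exact h3
  have hHd : ∀ m : ℕ, DifferentiableOn ℂ
      (fun z => (-1) ^ m * ((m : ℂ) + 1) * (v.eval z) ^ m * ((u.eval z) ^ (m + 2))⁻¹)
      (ball 0 (δ + 1)) := by
    intro m z hz
    rw [mem_ball_zero_iff] at hz
    refine DifferentiableAt.differentiableWithinAt ?_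
    refine ((differentiableAt_const _).mul (v.differentiable.differentiableAt.pow m)).mul ?_
    exact (u.differentiable.differentiableAt.pow (m + 2)).inv (pow_ne_zero _ (hS1 z hz).1)
  refine ⟨fun m i => PowerSeries.coeff i (Hm u v m), 4 * (c ^ 2)⁻¹, ρ, by rw [hρ]; linarith, ?_, ?_, ?_⟩
  · intro m i
    refine rp_bound (hH m) (hHd m) hρ0 hρr (M := 4 * (c ^ 2)⁻¹ * (2⁻¹) ^ m) ?_ i
    intro z hz
    obtain ⟨h1, h2⟩ := hS1 z (hz.trans_lt hρr)
    have h3 := norm_pos_iff.2 h1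
    rw [norm_mul, norm_mul, norm_mul, norm_pow, norm_neg, norm_one, one_pow, one_mul, norm_inv,
      norm_pow, norm_pow]
    have h4 : ‖(m : ℂ) + 1‖ = (m : ℝ) + 1 := by
      have : ((m : ℂ) + 1) = ((m + 1 : ℕ) : ℂ) := by push_cast; ring
      rw [this, Complex.norm_natCast]
      push_cast
      ring
    rw [h4]
    calc ((m : ℝ) + 1) * ‖v.eval z‖ ^ m * (‖u.eval z‖ ^ (m + 2))⁻¹ ≤
        ((m : ℝ) + 1) * (2 / 5 * ‖u.eval z‖) ^ m * (‖u.eval z‖ ^ (m + 2))⁻¹ := by gcongr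
      _ = ((m : ℝ) + 1) * (2 / 5) ^ m * (‖u.eval z‖ ^ 2)⁻¹ := by
        rw [mul_pow, pow_add]
        field_simp
      _ ≤ (4 * (2⁻¹) ^ m) * (c ^ 2)⁻¹ := by
        have := hcu z hz
        exact mul_le_mul (pow_bound m) (inv_anti₀ (by positivity) (by gcongr)) (by positivity)
          (by positivity)
      _ = 4 * (c ^ 2)⁻¹ * (2⁻¹) ^ m := by ring
  · intro m z hz
    exact hH m z (by linarith)
  · intro Q hQ b
    exact gco_eq u v (hu 0 (by simp)) Q hQ b

end Pool.Agent.U780.BX.EXP
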